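import Pool.Agent.Run7.h606.DB.Col
import Pool.Agent.R703.MO.Main

/-!
# `ℓ²`-homology above half the action dimension: nerves which are coloured off an amenable set of vertices

Let `G` be a full subgraph of the graph of a flag homology sphere mod `2` of dimension `n - 1` (`Full2 n G`). For a
(PL) triangulation of the `(n-1)`-sphere the Davis complex of the right-angled Coxeter group `W G` has a regular
neighbourhood in the Davis complex of the group of the sphere, which is a contractible `n`-manifold with boundary on
which `W G` acts geometrically, so that the cocompact action dimension of `W G` is at most `n`.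

We show that the `ℓ²`-homology of `W G` vanishes in the degrees `> d`, `n ≤ 2 d + 1`, if there is a set `A` of vertices
such that `G - A` is properly coloured by `d + 1` colours and each element of `A` is adjacent to all the other elements
of `A` with at most one exception; that is, `A` generates a product of groups of order two and infinite dihedral groups.
For `A` empty this is known (a van Kampen obstruction argument). There is no condition on the links of the elements of
`A`; if the `ℓ²`-homology of the links vanished in the degrees `≥ d`, one could add the vertices one by one.

Proof. `W G` is the semidirect product of the amenable group `W_A` and the right-angled Coxeter group `K` of an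
infinite graph, the union of the translates of `G - A` under `W_A`. For a convex set `C` of elements of `W_A` with
`2 ^ k` elements the union of the corresponding copies of `G - A` is again coloured by `d + 1` colours and
contained in a flag homology sphere, so its `ℓ²`-homology vanishes above the degree `d`. The `ℓ²`-Betti numbers of `W G`
are bounded by the ones of this part plus a contribution of the boundary of `C`, divided by `2 ^ k`. Unfoldings along
pairs of elements of `A` are enough, for which the boundary does not grow.
-/

set_option autoImplicit false

namespace Pool.Agent.Results.MP_ea75ba_gt.AmenableUnfoldings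

open Pool.Agent.W907.SG Pool.Agent.Y132.SI Pool.Agent.Run7.h606.DB

/-- Let `G` be a full subgraph of a flag homology sphere mod `2` of dimension `n - 1 ≤ 2 d`, let `A` be a set of
vertices each of which is adjacent to all the others with at most one exception, and let the full subgraph on the
complement of `A` be properly coloured by `d + 1` colours. (1) The reduced `ℓ²`-homology of the Davis complex of the
right-angled Coxeter group `W G` vanishes in the degrees `i > d`. (2) For each `ε > 0` there is a finite set `E` of
nontrivial elements of `W G` such that for every subgroup `H` of finite index which contains no conjugate of an element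
of `E`, and for all `i > d`, the `i`-th real Betti number of `H` is at most `ε [W G : H]`. -/
theorem result : ∀ (n d : ℕ) (V : Type) [Fintype V] [LinearOrder V] (G : SimpleGraph V), Full2 n G → n ≤ 2 * d + 1 →
    ∀ (A : Set V) (c : V → Fin (d + 1)),
      (∀ a ∈ A, ∀ b ∈ A, ∀ b' ∈ A, b ≠ a → b' ≠ a → ¬ G.Adj a b → ¬ G.Adj a b' → b = b') →
      (∀ x, x ∉ A → ∀ y, y ∉ A → G.Adj x y → c x ≠ c y) →
    (∀ i : ℕ, d < i → L2Van G i) ∧
    ∀ ε : ℝ, 0 < ε → ∃ E : Finset (W G), (1 : W G) ∉ E ∧
      ∀ H : Subgroup (W G), H.FiniteIndex → (∀ g ∈ E, ∀ x : W G, x * g * x⁻¹ ∉ H) →
        ∀ i : ℕ, d < i → (Module.finrank ℝ (HInv G H i) : ℝ) ≤ ε * H.index := by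
  intro n d V _ _ G hG hn A c hA hc
  have h : ∀ i : ℕ, d < i → L2Van G i := fun i hi => l2_amen hG hn A hA c hc i hi
  exact ⟨h, fun ε hε => Pool.Agent.R703.MO.growth_set G (fun i => d < i) h ε hε⟩

end Pool.Agent.Results.MP_ea75ba_gt.AmenableUnfoldings
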