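import Pool.Agent.Run7.h714.DU.Inv
import Pool.Agent.Run7.h714.DU.Avg

/-!
# `ℓ²`-homology of the special subgroups given by coloured full subcomplexes of flag spheres

Let `L` be a flag complex which is a homology `(n - 1)`-sphere over the reals and over the field with two elements,
`n ≥ 5`, given by its graph `G`, for example a flag triangulation of the `(n-1)`-sphere; `W` its right-angled Coxeter
group, `Σ` the Davis complex of `W`, and `A` a set of vertices of `L`. If `L` is a triangulated sphere the special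
subgroup `W_A` acts properly and cocompactly on a contractible `n`-manifold with boundary (a regular neighbourhood of
the Davis complex `Σ_A` of `W_A` in `Σ`). For a subgroup `H` of finite index of `W` the cubes `w W_T`, `T ⊆ A`, form
a subcomplex of `H \ Σ`, a disjoint union of quotients of copies of `Σ_A`; by the Hodge theorem the dimension of
`HInvA G H A i` is the `i`-th real Betti number of this subcomplex, if `H` is torsion-free. If `H` runs through a
decreasing sequence of normal subgroups with trivial intersection then, by the approximation theorem of Lück, this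
dimension divided by the index `[W : H]` tends to the `ℓ²`-Betti number `b_i(W_A)`, the von Neumann dimension of
`L²H_i(W_A)`.

**Result**, in terms of the `ℓ²`-Betti numbers, if the full subcomplex on `A` has a proper colouring by `k ≥ 3`
colours: `b_i(W_A) = 0` for `i ≥ n - 1` and

  `b_(n-2)(W_A) ≤ 2^(3-n) (C(k - n + 4, 3) / C(k, 3)) ∑_T χ(lk T)`,

the sum over the simplices `T ⊆ A` with `n - 4` vertices; `χ(lk T)`, the sum of the `(-1/2)^|S|` over the simplices
`S` of the link, is the Charney-Davis quantity of the flag 3-sphere `lk T`, which is nonnegative by the theorem of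
Davis and Okun. For `A` the set of all vertices of `L` (`W` acts on the manifold `Σ` without boundary) the same bound
holds for `b_2(W)`. For `n = 5`, the first dimension in which the question is open for these groups:
`b_3(W_A) ≤ ((k - 3) / (4 k)) ∑_(w ∈ A) χ(lk w)`.
-/

set_option autoImplicit false

namespace Pool.Agent.Results.MP_ea75ba_gt.ColouredNerves

open Pool.Agent.W907.SG (W)
open Pool.Agent.R580.CD (Sph)
open Pool.Agent.N13.EU (chiL)
open Pool.Agent.Run7.h714.DU (HInvA)

open Classical in
/-- the simplices with `k` vertices in `B` -/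
noncomputable def faces {V : Type} (G : SimpleGraph V) (B : Finset V) (k : ℕ) : Finset (Finset V) :=
  (B.powersetCard k).filter fun T => G.IsClique (T : Set V)

open Classical in
theorem faces_eq {V : Type} (G : SimpleGraph V) (B : Finset V) (k : ℕ) :
    faces G B k = Pool.Agent.Run7.h714.DU.cls G B k := by
  ext T
  rw [Pool.Agent.Run7.h714.DU.mem_cls]
  unfold faces
  rw [Finset.mem_filter, Finset.mem_powersetCard]

open Classical in
theorem mem_faces {V : Type} {G : SimpleGraph V} {B : Finset V} {k : ℕ} {T : Finset V} :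
    T ∈ faces G B k ↔ (T ⊆ B ∧ T.card = k) ∧ G.IsClique (T : Set V) := by
  unfold faces
  rw [Finset.mem_filter, Finset.mem_powersetCard]

/-- full subcomplexes with a colouring by three colours -/
theorem three_lv {V : Type} [Fintype V] [LinearOrder V] {k : ℕ} {G : SimpleGraph V} (h2 : Sph (ZMod 2) (k + 5) G)
    {I : Finset V} (c : V → Fin 3) (hc : ∀ u ∈ I, ∀ w ∈ I, G.Adj u w → c u ≠ c w) (R : Finset V)
    (hR : G.IsClique (R : Set V)) (hRk : R.card ≤ k) :
    Pool.Agent.W907.SM.LV (G.induce ((I : Set V) ∩ Pool.Agent.W907.SM.lk G R)) (k + 3 - R.card) := by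
  by_cases hk : R.card = k
  · rw [hk, show k + 3 - k = 3 by omega]
    exact Pool.Agent.Run7.h714.DU.lv_three h2 R hR (by omega) _ Set.inter_subset_right c
      (fun u hu w hw => hc u (Finset.mem_coe.1 hu.1) w (Finset.mem_coe.1 hw.1)) 3 le_rfl
  · refine Pool.Agent.Run7.h714.DU.lv_dim_sub fun T hT hTI => ?_
    have := Pool.Agent.Run7.h714.DU.card_le_col (A := (I : Set V)) c
      (fun u hu w hw => hc u (Finset.mem_coe.1 hu) w (Finset.mem_coe.1 hw)) T hT
      (hTI.trans Set.inter_subset_left)
    omega

/-- the number of the triples of colours which avoid a set of colours -/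
theorem count_avoid {k : ℕ} (S : Finset (Fin k)) :
    ((Finset.univ.powersetCard 3).filter (fun P : Finset (Fin k) => Disjoint P S)).card =
      (k - S.card).choose 3 := by
  classical
  have h1 : (Finset.univ.powersetCard 3).filter (fun P : Finset (Fin k) => Disjoint P S) =
      (Finset.univ \ S).powersetCard 3 := by
    ext P
    rw [Finset.mem_filter, Finset.mem_powersetCard, Finset.mem_powersetCard, Finset.subset_sdiff]
    tauto
  rw [h1, Finset.card_powersetCard, Finset.card_sdiff_of_subset (Finset.subset_univ S), Finset.card_univ,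
    Fintype.card_fin]

/-- the average over the triples of colours -/
theorem avg {V : Type} [Fintype V] [LinearOrder V] {G : SimpleGraph V} (A : Finset V) (k m : ℕ) (c : V → Fin k)
    (hc : ∀ u ∈ A, ∀ w ∈ A, G.Adj u w → c u ≠ c w) (f : Finset V → ℚ) :
    ∑ P ∈ (Finset.univ : Finset (Fin k)).powersetCard 3,
        ∑ T ∈ faces G (A \ A.filter fun v => c v ∈ P) m, f T =
      ((k - m).choose 3 : ℚ) * ∑ T ∈ faces G A m, f T := by
  classical
  have h1 : ∀ P : Finset (Fin k), ∑ T ∈ faces G (A \ A.filter fun v => c v ∈ P) m, f T =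
      ∑ T ∈ faces G A m, if Disjoint P (T.image c) then f T else 0 := by
    intro P
    rw [← Finset.sum_filter]
    refine Finset.sum_congr ?_ fun _ _ => rfl
    ext T
    rw [mem_faces, Finset.mem_filter, mem_faces, Finset.disjoint_right]
    constructor
    · rintro ⟨⟨h4, h5⟩, h6⟩
      refine ⟨⟨⟨h4.trans Finset.sdiff_subset, h5⟩, h6⟩, fun x hx => ?_⟩
      obtain ⟨v, hv, rfl⟩ := Finset.mem_image.1 hx
      intro h7
      have h8 := Finset.mem_sdiff.1 (h4 hv)
      exact h8.2 (Finset.mem_filter.2 ⟨h8.1, h7⟩)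
    · rintro ⟨⟨⟨h3, h5⟩, h6⟩, h4⟩
      refine ⟨⟨fun v hv => Finset.mem_sdiff.2 ⟨h3 hv, fun h7 => ?_⟩, h5⟩, h6⟩
      exact h4 (Finset.mem_image_of_mem _ hv) (Finset.mem_filter.1 h7).2
  rw [Finset.sum_congr rfl fun P _ => h1 P, Finset.sum_comm, Finset.mul_sum]
  refine Finset.sum_congr rfl fun T hT => ?_
  rw [mem_faces] at hT
  rw [← Finset.sum_filter, Finset.sum_const, nsmul_eq_mul, count_avoid]
  have h5 : (T.image c).card = m := by
    rw [Finset.card_image_of_injOn, hT.1.2]
    intro x hx y hy hxy
    by_contra hne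
    exact hc x (hT.1.1 hx) y (hT.1.1 hy) (hT.2 hx hy hne) hxy
  rw [h5]

/-- **Coloured nerves.** Let the flag complex of `G` be a homology `(n - 1)`-sphere over the reals and over the field
with two elements, `n ≥ 5`, and let `ε > 0`. There is a finite set `E` of nontrivial elements of the right-angled
Coxeter group `W G` such that for every subgroup `H` of finite index of the commutator subgroup of `W G` which contains
no conjugate of an element of `E`: (1) for all sets `A` of vertices and all `i ≥ n - 1` the `i`-th Betti number of the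
subcomplex of `H \ Σ` given by `A` is at most `ε [W : H]`; (2) for all `A`, all `k ≥ 3` and all proper colourings of
the full subcomplex on `A` by `k` colours the `(n-2)`-nd Betti number of this subcomplex is at most
`(2^(3-n) (C(k - n + 4, 3) / C(k, 3)) ∑ χ(lk T) + ε) [W : H]`, the sum over the simplices `T ⊆ A` with `n - 4`
vertices; (3) for all `k ≥ 3` and all proper colourings of `G` by `k` colours the second Betti number of `H \ Σ`
satisfies the same bound with all vertices in place of `A`. -/
theorem result (n : ℕ) (hn : 5 ≤ n) (V : Type) [Fintype V] [LinearOrder V] (G : SimpleGraph V) (hS : Sph ℝ n G)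
    (h2 : Sph (ZMod 2) n G) (ε : ℝ) (hε : 0 < ε) :
    ∃ E : Finset (W G), (1 : W G) ∉ E ∧ ∀ H : Subgroup (W G), H ≤ commutator (W G) → H.FiniteIndex →
      (∀ g ∈ E, ∀ x : W G, x * g * x⁻¹ ∉ H) →
      (∀ (A : Finset V) (i : ℕ), n - 1 ≤ i → (Module.finrank ℝ (HInvA G H A i) : ℝ) ≤ ε * H.index) ∧
      (∀ (A : Finset V) (k : ℕ) (c : V → Fin k), 3 ≤ k → (∀ u ∈ A, ∀ w ∈ A, G.Adj u w → c u ≠ c w) →
        (Module.finrank ℝ (HInvA G H A (n - 2)) : ℝ) ≤
          ((((k + 4 - n).choose 3 : ℚ) / (k.choose 3 : ℚ) *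
            ((∑ T ∈ faces G A (n - 4), chiL G T) / 2 ^ (n - 3)) : ℚ) + ε) * H.index) ∧
      (∀ (k : ℕ) (c : V → Fin k), 3 ≤ k → (∀ u w, G.Adj u w → c u ≠ c w) →
        (Module.finrank ℝ (HInvA G H Finset.univ 2) : ℝ) ≤
          ((((k + 4 - n).choose 3 : ℚ) / (k.choose 3 : ℚ) *
            ((∑ T ∈ faces G Finset.univ (n - 4), chiL G T) / 2 ^ (n - 3)) : ℚ) + ε) * H.index) := by
  classical
  obtain ⟨k, rfl⟩ : ∃ k, n = k + 5 := ⟨n - 5, by omega⟩
  have hH := Pool.Agent.Run7.h714.DU.hsph_iff.1 hS
  obtain ⟨E, hE, h⟩ := Pool.Agent.Run7.h714.DU.growth_sub k hH ε hε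
  refine ⟨E, hE, fun H hHc hfin hEH => ?_⟩
  obtain ⟨h1, h3⟩ := h H hHc hfin hEH
  have h4 : ∀ (A : Finset V) (q : ℕ) (c : V → Fin q), 3 ≤ q →
      (∀ u ∈ A, ∀ w ∈ A, G.Adj u w → c u ≠ c w) →
      (Module.finrank ℝ (HInvA G H A (k + 5 - 2)) : ℝ) ≤
        ((((q + 4 - (k + 5)).choose 3 : ℚ) / (q.choose 3 : ℚ) *
            ((∑ T ∈ faces G A (k + 5 - 4), chiL G T) / 2 ^ (k + 5 - 3)) : ℚ) + ε) * H.index := by
    intro A q c hq hc
    have hq0 : (0 : ℝ) < (q.choose 3 : ℝ) := by exact_mod_cast Nat.choose_pos hq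
    have h5 : ∀ P ∈ (Finset.univ : Finset (Fin q)).powersetCard 3,
        (Module.finrank ℝ (HInvA G H A (k + 3)) : ℝ) ≤
          (((∑ T ∈ faces G (A \ A.filter fun v => c v ∈ P) (k + 1), chiL G T) / 2 ^ (k + 2) : ℚ) + ε) *
            H.index := by
      intro P hP
      rw [Finset.mem_powersetCard] at hP
      obtain ⟨φ⟩ : Nonempty (↥P ≃ Fin 3) := ⟨P.equivFinOfCardEq hP.2⟩
      have h6 := h3 (A.filter fun v => c v ∈ P) (A \ A.filter fun v => c v ∈ P)
        (fun v hv => (Finset.mem_sdiff.1 hv).2)
        (fun R hR _ hRk => three_lv h2 (fun v => if h : c v ∈ P then φ ⟨c v, h⟩ else 0) (by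
          intro u hu w hw huw
          obtain ⟨hu1, hu2⟩ := Finset.mem_filter.1 hu
          obtain ⟨hw1, hw2⟩ := Finset.mem_filter.1 hw
          rw [dif_pos hu2, dif_pos hw2]
          intro h7
          exact hc u hu1 w hw1 huw (congrArg Subtype.val (φ.injective h7))) R hR hRk)
      rw [Finset.union_sdiff_of_subset (Finset.filter_subset _ _)] at h6
      rw [faces_eq]
      exact h6
    have h6 := Finset.sum_le_sum h5
    rw [Finset.sum_const, Finset.card_powersetCard, Finset.card_univ, Fintype.card_fin, nsmul_eq_mul,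
      ← Finset.sum_mul, Finset.sum_add_distrib, Finset.sum_const, Finset.card_powersetCard, Finset.card_univ,
      Fintype.card_fin, nsmul_eq_mul, ← Rat.cast_sum, ← Finset.sum_div, avg A q (k + 1) c hc] at h6
    have e1 : k + 5 - 2 = k + 3 := by omega
    have e2 : k + 5 - 4 = k + 1 := by omega
    have e3 : k + 5 - 3 = k + 2 := by omega
    have e4 : q + 4 - (k + 5) = q - (k + 1) := by omega
    rw [e1, e2, e3, e4]
    refine le_of_mul_le_mul_left (h6.trans (le_of_eq ?_)) hq0
    push_cast
    field_simp
  refine ⟨fun A i hi => h1 A i (by omega), h4, fun q c hq hc => ?_⟩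
  have h5 := h4 Finset.univ q c hq (fun u _ w _ => hc u w)
  have : Finite (Quotient (QuotientGroup.rightRel H)) :=
    Finite.of_equiv _ (QuotientGroup.quotientRightRelEquivQuotientLeftRel H).symm
  let _ : Fintype (Quotient (QuotientGroup.rightRel H)) := Fintype.ofFinite _
  rw [Pool.Agent.Run7.h714.DU.finrank_HInvA] at h5 ⊢
  rw [Finset.coe_univ] at h5 ⊢
  have h6 := Pool.Agent.TH652.Dual.duality_sgn hH (Pool.Agent.Y132.SI.aa_inv G H)
    (fun u v h x => Pool.Agent.Y132.SI.aa_comm G H u v h x) (Pool.Agent.Y132.SI.sn_self G H hHc)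
    (fun u v h x => Pool.Agent.Y132.SI.sn_other G H hHc u v h x) (i := 2) (j := k + 5 - 2) (by omega)
  rw [h6]
  exact h5

end Pool.Agent.Results.MP_ea75ba_gt.ColouredNerves
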