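import Pool.Agent.Run7.h31.Raise.Orbifold3

/-!
# Geometric actions and cochains which can be pushed upwards

Let the group `G` act properly and cocompactly on a cell complex, for instance on a triangulated
contractible manifold `M` with or without boundary. The stabilizers of the cells are finite, and they
may reverse the orientations of the cells. The chains of degree `i` with complex coefficients are the
row vectors over the group algebra which are fixed by the diagonal matrix of the idempotents of the
stabilizers of the representatives of the orbits, so that the complex is given by matrices `D i` over
the group algebra (`IsOrbifoldComplex`). Its reduced `L²`-homology is represented by the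
square-summable harmonic cochains, and `orbBetti` is its von Neumann dimension.

Let `G` act by order-preserving maps on a totally ordered set `X`, in which the cells of the
representatives of the orbits have heights. The theorem bounds the `L²`-Betti numbers if there is an
endomorphism homotopic to the identity which strictly raises the heights of all chains or of all
cochains of degree `i` except those in some exceptional orbits: the `L²`-Betti number is at most the
sum of the numbers `1 / |G_σ|` over the exceptional orbits. And if every finite cochain of a degree at
least `k` whose coboundary has large heights is the sum of a coboundary and of a cochain of large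
heights, then the `L²`-homology vanishes in all degrees at least `k`. For a contractible manifold
of dimension `n` and `k > n / 2` this is the vanishing above half the dimension. By
duality the condition concerns the homology of `M` modulo its boundary in the degrees at most `n - k`.

Outline. Let `P` be the diagonal matrix of the idempotents. The `L²`-Betti number is the one of the
complex of free modules with the matrices `D i` minus the dimension of the kernel of `P`. The
harmonic cochains of the free complex are in the kernel of `P * (1 - Z)` for the matrix `Z` of the
endomorphism. The finite stabilizers act trivially on the totally ordered set `X`, hence `P` preserves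
all heights, and the level inequality `N309.LO.level_le` compares `P * (1 - Z)` with the part of `P` in
the orbits which are raised. The homotopies are constructed by induction on the degree, starting with
the greatest degree, within the modules which are fixed by the idempotents.
-/

set_option autoImplicit false

open scoped Matrix

universe u v

namespace Pool.Agent.Results.MP_ea75ba_gt.FiniteStabilizers

open Pool.Agent.Results.MP_984acc_gt.OrderRaising Run7.h31.Raise

/-- **Geometric actions and ordered sets.** Let `D` be a complex of chains with finite stabilizers
`S i j` and orientation characters `ε i j`, and let `X` be a totally ordered set on which `G` acts by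
order-preserving maps.

1. If the endomorphism of degree `i` with the matrix `Z` is homotopic to the identity and strictly
raises the heights of the basis chains (its rows) or of the basis cochains (its columns) outside the
set `T`, then `orbBetti D S ε i` is at most the sum of `1 / |S i j|` over `j ∈ T`.
2. Let `D` be of finite length, let `X` have no greatest element and `k ≥ 1`. If the cochains are
upward exact in the degrees at least `k`, then the `L²`-Betti numbers in these degrees vanish. -/
theorem result (G : Type u) [Group G] (r : ℕ → ℕ) (D : Matrices G r)
    (S : ∀ i, Fin (r i) → Subgroup G) (ε : ∀ i j, S i j →* ℤˣ) (hD : IsOrbifoldComplex D S ε)
    (X : Type v) [LinearOrder X] [MulAction G X] (hX : OrderInvariant G X) :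
    (∀ (i : ℕ) (Z : Matrix (Fin (r i)) (Fin (r i)) (MonoidAlgebra ℂ G)) (w : Fin (r i) → X)
      (T : Finset (Fin (r i))), IsOrbHomotopicToOne D S ε i Z →
      ((∀ j, j ∉ T → HeightsMoreThan w (w j) (Z j)) ∨
        (∀ j, j ∉ T → CoHeightsMoreThan w (w j) (fun l => Z l j))) →
      orbBetti D S ε i ≤ ∑ j ∈ T, 1 / (Nat.card (S i j) : ℝ)) ∧
    (∀ [NoMaxOrder X] (N k : ℕ) (w : ∀ i, Fin (r i) → X), (∀ i, N < i → r i = 0) → 1 ≤ k →
      IsOrbUpwardExact k D S ε w → ∀ i, k ≤ i → orbBetti D S ε i = 0) := by
  refine ⟨fun i Z w T hZ hT => orb_raised hX hD i Z hZ w T hT, ?_⟩
  intro _ N k w hN hk h i hi
  exact orb_co_vanish hX hD N hN w k hk h i hi

end Pool.Agent.Results.MP_ea75ba_gt.FiniteStabilizers
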