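import Pool.Agent.Run7.h709.GA.Virt

/-!
# `L²`-homology above the middle: all groups which are virtually subgroups of explicit right-angled Coxeter groups

Let `Λ` be a group which acts geometrically on a contractible manifold `M`, with or without boundary, more generally
on an acyclic complex `A` (`Cplx`, `Acyclic`: the cells of `A` have finite stabilizers and form finitely many orbits,
`Λ` preserves the incidence numbers, for example on a barycentric subdivision, and the augmented cellular chain complex
is exact). `A.harm` are the square-summable harmonic chains, which represent the reduced `L²`-homology, and `A.betti i`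
is their von Neumann dimension in the degree `i`, the `i`-th `L²`-Betti number of `Λ`.

We assume that `Λ` is, up to finite kernels and finite index, a subgroup of a right-angled Coxeter group `W G`
(`VirtSub`): some subgroup `K` of `W G`, of finite or infinite index, has a homomorphism with finite kernel onto a
subgroup of finite index of `Λ`. We show that the reduced `L²`-homology of `Λ` vanishes in all the degrees `i ≥ b` if
the set of all the vertices of `G` is in the class `AC G b`, and for the following explicit graphs `G`:

* `b = d + 1`, `G` is obtained from a simplicial complex `X` in the sphere of dimension `2 d`, with vertices coloured by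
  `d + 1` colours and without monochromatic triangles, by subdividing the monochromatic edges;
* `b = m + 1`, `G` is the join of `m` graphs which are `2`-degenerate;
* `b = m + 1`, `G` is the graph of the barycentric subdivision of any complex `X` of dimension at most `2 m - 1`,
  `m ≤ 3`, or a colourwise subdivision, with simplices of at most six vertices in one colour and at most two vertices
  in the other colours, `m` the sum of the halves of these numbers;
* `b = d + 1`, `d ≤ 2`, `G` is the graph of the barycentric subdivision of a complex in the sphere of dimension `2 d`, or
  a colourwise subdivision.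

So Q1 holds for every action of `Λ` on a contractible manifold of dimension `n ≥ 2 b - 2`, for instance if `Λ` has no
geometric action on a contractible manifold of smaller dimension. No manifold related to `W G` is needed, `Λ` can have
torsion, and it is in general not a group generated by reflections, nor of finite index in `W G`.

Outline. A subgroup `K` of finite index acts freely, and the vanishing for the torsion free subgroups of `W G` is our
theorem in `Pool.Agent.Run7.h709.AC` (Lueck's dimension of `Tor` over the group von Neumann algebra). The cells of `A`
give a resolution of `ℤ` by finitely generated free `ℤ[K]`-modules (`GA.Based.res`). The ranks over the von Neumann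
algebra of its matrices add up, hence two projections, the one on the kernel of the coboundary and the one on the
closure of the image of the coboundary, are equal, as their difference is a projection of trace zero
(`GA.no_harm`). So there are no harmonic chains (`GA.Based.harm_zero`), and this does not depend on the group.
-/

set_option autoImplicit false

namespace Pool.Agent.Results.MP_ea75ba_gt.VirtualReflectionSubgroups

open Pool.Agent.W907.SG Pool.Agent.W461.SGN Pool.Agent.N496.CV Pool.Agent.R782.Bal Run7.h709.AC Run7.h709.GA
open Pool.Agent.Run7.h604.HK (Cplx)

/-- For every acyclic complex `A` (cocompact, with finite stabilizers) whose group is virtually, up to finite kernels,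
a subgroup of `W G`: the `L²`-Betti numbers in the degrees `≥ b` are zero, and the square-summable harmonic chains are
zero on all the cells of dimension `≥ b`. -/
def Vanishes {V : Type} [Fintype V] [LinearOrder V] (G : SimpleGraph V) (b : ℕ) : Prop :=
  ∀ A : Cplx, Acyclic A → VirtSub A G →
    (∀ i : ℕ, b ≤ i → A.betti i = 0) ∧ ∀ f ∈ A.harm, ∀ x : A.X, b ≤ A.deg x → f x = 0

theorem vanishes {V : Type} [Fintype V] [LinearOrder V] (G : SimpleGraph V) {b : ℕ} (h : AC G b Set.univ) :
    Vanishes G b :=
  fun _ hA hv => ⟨fun i hi => virt_betti h hA hv i hi, fun f hf x hx => virt_harm h hA hv f hf x hx⟩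

/-- `X` is a simplicial complex, and each simplex of `X` all of whose vertices have the colour `c` has at most
`2 a c` vertices. -/
def Bounded {N n : ℕ} (X : Finset (Finset (Fin N))) (col : Fin N → Fin n) (a : Fin n → ℕ) : Prop :=
  (∀ σ ∈ X, ∀ τ : Finset (Fin N), τ ⊆ σ → τ ∈ X) ∧
    ∀ σ ∈ X, ∀ c, (∀ v ∈ σ, col v = c) → σ.card ≤ 2 * a c

/-- The reduced `L²`-homology of all the groups which are, up to finite kernels and finite index, subgroups (of
arbitrary index) of `W G` vanishes in the degrees `≥ b` (`Vanishes G b`): (1) if the set of all vertices of the finite
graph `G` is in the class `AC G b`; (2) for `b = d + 1` if `G` is obtained from a simplicial complex `X` embedded in the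
sphere of dimension `2 d`, with vertices coloured by `d + 1` colours and without monochromatic triangles, by
subdividing the monochromatic edges; (3) for `b = m + 1` if `G` is the join of `m` graphs which are `2`-degenerate;
(4) for `b = ∑ a c + 1` if `G` is the graph of the colourwise barycentric subdivision (with one colour: the
barycentric subdivision) of a finite simplicial complex `X` with coloured vertices such that the simplices with all the
vertices of the colour `c` have at most `2 a c` vertices, `a c₀ ≤ 3` for one colour `c₀`, `a c ≤ 1` for the others;
(5) for `b = d + 1` if `G` is such a subdivision, `d ≤ 2`, `∑ a c ≤ d + 1`, and `X` is of dimension at most `2 d` and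
embedded in the sphere of dimension `2 d`. -/
theorem result :
    (∀ (b : ℕ) (V : Type) [Fintype V] [LinearOrder V] (G : SimpleGraph V), AC G b Set.univ → Vanishes G b) ∧
    (∀ (d N : ℕ) (X : Finset (Finset (Fin N))) (col : Fin N → Fin (d + 1)),
      (∀ σ ∈ X, ∀ τ : Finset (Fin N), τ ⊆ σ → τ ∈ X) →
      (∀ σ ∈ X, (∀ v ∈ σ, ∀ w ∈ σ, col v = col w) → σ.card ≤ 2) → EmbX d X col →
      ∀ [Fintype (MF X col)] [LinearOrder (MF X col)], Vanishes (cs X col) (d + 1)) ∧
    (∀ (m : ℕ) (V : Type) [Fintype V] [LinearOrder V] (G : SimpleGraph V) (p : V → Fin m),
      (∀ u v, p u ≠ p v → G.Adj u v) → (∀ i, Deg2 G p i) → Vanishes G (m + 1)) ∧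
    (∀ (N n : ℕ) (X : Finset (Finset (Fin N))) (col : Fin N → Fin n) (a : Fin n → ℕ) (c₀ : Fin n),
      Bounded X col a → a c₀ ≤ 3 → (∀ c, c ≠ c₀ → a c ≤ 1) →
      ∀ [Fintype (MF X col)] [LinearOrder (MF X col)], Vanishes (cs X col) (∑ c, a c + 1)) ∧
    (∀ (N n d : ℕ) (X : Finset (Finset (Fin N))) (col : Fin N → Fin n) (a : Fin n → ℕ),
      Bounded X col a → d ≤ 2 → ∑ c, a c ≤ d + 1 → (∀ σ ∈ X, σ.card ≤ 2 * d + 1) → EmbX d X col →
      ∀ [Fintype (MF X col)] [LinearOrder (MF X col)], Vanishes (cs X col) (d + 1)) := by
  refine ⟨?_, ?_, ?_, ?_, ?_⟩
  · intro b V _ _ G h
    exact vanishes G h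
  · intro d N X col hX ht hE _ _
    exact vanishes _ (ac_cs hX ht hE)
  · intro m V _ _ G p hp hd
    exact vanishes G (ac_joins p hp hd)
  · intro N n X col a c₀ hX h3 h1 _ _
    exact vanishes _ (ac_bary hX.1 a c₀ h3 h1 hX.2)
  · intro N n d X col a hX hd hsum hdim hE _ _
    exact vanishes _ (ac_bary_emb hX.1 a d hd hsum hX.2 hdim (hE.emb hX.1).obs)

end Pool.Agent.Results.MP_ea75ba_gt.VirtualReflectionSubgroups
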